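import Pool.Agent.TH915.HC.Fin

/-! MP_ef2672_gt: the limit of `γ_n / n` exists if and only if its arithmetic means converge, with
an explicit lower bound for the oscillation of the means. -/

open Filter
open scoped Topology

namespace Pool.Agent.Results.MP_ef2672_gt.AveragesDecide

open Pool.Agent.H160R3.Herm

/-- arithmetic mean of `γ_n / n` over the dimensions `1 ≤ n ≤ N` -/
noncomputable def avg (N : ℕ) : ℝ := (∑ n ∈ Finset.Icc 1 N, hermite n / (n : ℝ)) / N

theorem result :
    (∀ L : ℝ, Tendsto (fun n : ℕ => hermite n / (n : ℝ)) atTop (𝓝 L) ↔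
      Tendsto avg atTop (𝓝 L)) ∧
    (∀ δ : ℝ, 0 < δ → δ ≤ 1 / 2 →
      δ * (limsup (fun n : ℕ => hermite n / (n : ℝ)) atTop -
          liminf (fun n : ℕ => hermite n / (n : ℝ)) atTop -
          2 * (δ * Real.log 144 + Real.binEntropy δ)) ≤
        (2 - δ) * (limsup avg atTop - liminf avg atTop)) := by
  refine ⟨fun L => TH915.HC.tendsto_iff slowDec, fun δ h0 h1 => ?_⟩
  exact TH915.HC.osc_mean slowDec h0 (by linarith) (E := modulus δ)
    fun θ hθ0 hθ1 => TH915.HC.modulus_mono hθ0 hθ1 h1

end Pool.Agent.Results.MP_ef2672_gt.AveragesDecide
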