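import Pool.Agent.TH220.HG.Vol
import Pool.Agent.TH220.HG.Cor

/-! MP_ef2672_gt: Hermite's constant `γ_n` is, up to a factor `2^(2/n)`, determined by the extremal
deficiency of the number of lattice points in balls. So Q1 is a question on counts of lattice points,
and the believed upper bound `limsup γ_n / n ≤ 1 / (2πe)` says that no lattice has exponentially
fewer points than the volume predicts in a ball that contains a nonzero lattice point. -/

open Filter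
open scoped Topology

namespace Pool.Agent.Results.MP_ef2672_gt.BallCounts

open Pool.Agent.H160R3.Herm Pool.Agent.TH220.HG

theorem result :
    (∀ n : ℕ, 0 < n → ∀ A : Matrix (Fin n) (Fin n) ℝ, A.det ≠ 0 → ∀ t : ℝ, 1 < t →
      t * gam A ≤ ((short A t).ncard : ℝ) ^ ((2 : ℝ) / n) * hermite n ∧
      ∀ θ : ℝ, 0 < θ → θ * hermite n ≤ gam A →
        (θ * t) ^ ((n : ℝ) / 2) ≤ (short A t).ncard) ∧
    (∀ n : ℕ, 0 < n → sparse n ≤ hermite n ∧ hermite n ≤ (2 : ℝ) ^ ((2 : ℝ) / n) * sparse n) ∧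
    (∀ L : ℝ, Tendsto (fun n : ℕ => hermite n / n) atTop (𝓝 L) ↔
      Tendsto (fun n : ℕ => sparse n / n) atTop (𝓝 L)) ∧
    ((∀ ε > 0, ∀ᶠ n : ℕ in atTop, hermite n / n ≤ 1 / (2 * Real.pi * Real.exp 1) + ε) ↔
      (∀ ε > 0, ∀ᶠ n : ℕ in atTop, ∀ A : Matrix (Fin n) (Fin n) ℝ, A.det ≠ 0 →
        ∀ t : ℝ, 1 < t → ballVol A t ≤ (1 + ε) ^ n * (short A t).ncard)) ∧
    (∀ᶠ n : ℕ in atTop, ∀ A : Matrix (Fin n) (Fin n) ℝ, A.det ≠ 0 → ∀ t : ℝ, 1 < t →
      ballVol A t ≤ (13155 / 10000) ^ n * (short A t).ncard) :=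
  ⟨fun _ hn _ hA _ ht => ⟨sub_ineq hn hA ht, fun _ hθ h => ball_count hn hA hθ h ht⟩,
    fun _ hn => ⟨sparse_le hn, hermite_le_sparse hn⟩, limit_iff, belief_iff, vol_uncond⟩

end Pool.Agent.Results.MP_ef2672_gt.BallCounts
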