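import Pool.Agent.TH220.HG.Cor

/-! MP_ef2672_gt: lattices whose Hermite invariant is close to `γ_n`, or at least `n / (2πe)`, have
exponentially many vectors in thin shells just above the minimum; the believed upper bound
`1 / (2πe)` holds for all lattices with few vectors in such a shell. -/

open Filter
open scoped Topology

namespace Pool.Agent.Results.MP_ef2672_gt.ShellVectors

open Pool.Agent.H160R3.Herm Pool.Agent.TH220.HG

theorem result :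
    (∀ᶠ n : ℕ in atTop, ∀ A : Matrix (Fin n) (Fin n) ℝ, A.det ≠ 0 →
      (((shell A 1 2).ncard + 1 : ℝ) ≤ (2 : ℝ) ^ (104 / 1000 * n : ℝ) ∨
        ((shell A ((201 / 200) ^ 2) 2).ncard + 1 : ℝ) ≤ (2 : ℝ) ^ (n / 11 : ℝ)) →
      gam A / n < 1 / (2 * Real.pi * Real.exp 1)) ∧
    (∀ n : ℕ, 0 < n → ∀ A : Matrix (Fin n) (Fin n) ℝ, A.det ≠ 0 →
      2 * gam A ≤ (((shell A 1 2).ncard + 1 : ℝ) * (4 * (n + 1) * (n + 5).choose 4)) ^
        ((2 : ℝ) / n) * hermite n) ∧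
    (∀ᶠ n : ℕ in atTop, ∀ A : Matrix (Fin n) (Fin n) ℝ, A.det ≠ 0 →
      gam A ≤ ((shell A ((201 / 200) ^ 2) 2).ncard + 1 : ℝ) ^ ((2 : ℝ) / n) *
        (2 : ℝ) ^ (-(9736 / 10000) : ℝ) * hermite n ∧
      gam A ≤ ((shell A ((201 / 200) ^ 2) ((6 / 5) ^ 2)).ncard + 1 : ℝ) ^ ((2 : ℝ) / n) *
        (2 : ℝ) ^ (-(1 / 10) : ℝ) * hermite n ∧
      gam A ≤ ((shell A ((1001 / 1000) ^ 2) ((7 / 6) ^ 2)).ncard + 1 : ℝ) ^ ((2 : ℝ) / n) *
        (2 : ℝ) ^ (-(1 / 100) : ℝ) * hermite n) ∧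
    (∀ n : ℕ, 0 < n → ∀ A : Matrix (Fin n) (Fin n) ℝ, A.det ≠ 0 → ∀ θ : ℝ, 0 < θ →
      θ * hermite n ≤ gam A →
      (θ * 2) ^ ((n : ℝ) / 2) ≤ ((shell A 1 2).ncard + 1 : ℝ) * (4 * (n + 1) * (n + 5).choose 4)) ∧
    (∀ᶠ n : ℕ in atTop, ∀ A : Matrix (Fin n) (Fin n) ℝ, A.det ≠ 0 → ∀ θ : ℝ, 0 < θ →
      θ * hermite n ≤ gam A →
      (θ * (2 : ℝ) ^ (9736 / 10000 : ℝ)) ^ ((n : ℝ) / 2) ≤
        (shell A ((201 / 200) ^ 2) 2).ncard + 1 ∧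
      (θ * (2 : ℝ) ^ (1 / 10 : ℝ)) ^ ((n : ℝ) / 2) ≤
        (shell A ((201 / 200) ^ 2) ((6 / 5) ^ 2)).ncard + 1 ∧
      (θ * (2 : ℝ) ^ (1 / 100 : ℝ)) ^ ((n : ℝ) / 2) ≤
        (shell A ((1001 / 1000) ^ 2) ((7 / 6) ^ 2)).ncard + 1) := by
  refine ⟨?_, fun n hn A hA => gap_touch hn hA, ?_, fun n hn A hA θ hθ h => shell_count hn hA hθ h, ?_⟩
  · filter_upwards [fam_touch, fam_A] with n h1 h2 A hA h
    rcases h with h | h
    · exact h1 A hA h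
    · exact h2 A hA h
  · filter_upwards [num_A, num_B, num_C] with n h1 h2 h3 A hA
    exact ⟨h1 A hA, h2 A hA, h3 A hA⟩
  · filter_upwards [num_A, num_B, num_C, eventually_gt_atTop 0] with n h1 h2 h3 hn A hA θ hθ h
    exact ⟨shell_count_of hn (by positivity) hθ (hermite_pos' hn) h (h1 A hA),
      shell_count_of hn (by positivity) hθ (hermite_pos' hn) h (h2 A hA),
      shell_count_of hn (by positivity) hθ (hermite_pos' hn) h (h3 A hA)⟩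

end Pool.Agent.Results.MP_ef2672_gt.ShellVectors
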