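import Pool.Agent.TH915.HC.Fin

/-! MP_ef2672_gt: every neighbourhood of every point between the lower and the upper limit of
`γ_n / n` is visited by `γ_n / n` with explicit positive upper density, uniformly in the point. -/

open Filter
open scoped Topology

namespace Pool.Agent.Results.MP_ef2672_gt.VisitsHavePositiveDensity

open Pool.Agent.H160R3.Herm

theorem result (δ ε x : ℝ) (hδ0 : 0 < δ) (hδ1 : δ ≤ 1 / 2)
    (hε : 4 * (δ * Real.log 144 + Real.binEntropy δ) ≤ ε)
    (hx1 : liminf (fun n : ℕ => hermite n / (n : ℝ)) atTop ≤ x)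
    (hx2 : x ≤ limsup (fun n : ℕ => hermite n / (n : ℝ)) atTop) :
    ∃ᶠ N : ℕ in atTop, δ / 2 * (N : ℝ) ≤
      ({n : ℕ | n ∈ Finset.Icc 1 N ∧ |hermite n / (n : ℝ) - x| < ε}.ncard : ℝ) := by
  have hpos : 0 < modulus δ := by
    have a1 := Real.binEntropy_nonneg hδ0.le (by linarith : δ ≤ 1)
    have a2 : 0 < Real.log 144 := Real.log_pos (by norm_num)
    unfold modulus
    positivity
  have hε' : 4 * modulus δ ≤ ε := hε
  exact TH915.HC.density slowDec hδ0 hδ1 (by linarith)
    (fun θ hθ0 hθ1 => (TH915.HC.modulus_mono hθ0 hθ1 hδ1).trans (by linarith)) hx1 hx2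

end Pool.Agent.Results.MP_ef2672_gt.VisitsHavePositiveDensity
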